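import Pool.Agent.Q17.WR.Stm2

/-!
# Project WR, job ZRP: the tensor product representation and the permutation of the factors
-/

set_option autoImplicit false
set_option linter.unusedSectionVars false
set_option linter.unusedVariables false

open scoped Classical

noncomputable section

namespace Pool.Agent.Q16.WR

open Pool.Agent.Q17.WR
open Pool.Agent.H254R3.IN (IsIrr)

/-- a matrix representation with entries indexed by the natural numbers below `d` -/
structure MR {G : Type} [Group G] (χ : G → ℂ) (d : ℕ) (M : G → ℕ → ℕ → ℂ) : Prop where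
  one : ∀ i < d, ∀ j < d, M 1 i j = if i = j then 1 else 0
  mul : ∀ g h, ∀ i < d, ∀ j < d, M (g * h) i j = ∑ k ∈ Finset.range d, M g i k * M h k j
  tr : ∀ g, χ g = ∑ i ∈ Finset.range d, M g i i

theorem exists_MR {G : Type} [Group G] (χ : G → ℂ) (h : IsIrr χ) :
    ∃ (d : ℕ) (M : G → ℕ → ℕ → ℂ), MR χ d M := by
  obtain ⟨V, _, _, _, ρ, -, rfl⟩ := h
  set d := Module.finrank ℂ V with hd
  let b : Module.Basis (Fin d) ℂ V := Module.finBasis ℂ V
  set A : G → Matrix (Fin d) (Fin d) ℂ := fun g => LinearMap.toMatrix b b (ρ g) with hA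
  set M : G → ℕ → ℕ → ℂ := fun g i j => if h : i < d ∧ j < d then A g ⟨i, h.1⟩ ⟨j, h.2⟩ else 0
    with hM
  have hMv : ∀ g i j (hi : i < d) (hj : j < d), M g i j = A g ⟨i, hi⟩ ⟨j, hj⟩ := by
    intro g i j hi hj
    rw [hM]
    exact dif_pos ⟨hi, hj⟩
  have hsum : ∀ F : ℕ → ℂ, ∑ k ∈ Finset.range d, F k = ∑ k : Fin d, F k := by
    intro F
    rw [Finset.sum_range]
  refine ⟨d, M, ⟨fun i hi j hj => ?_, fun g h i hi j hj => ?_, fun g => ?_⟩⟩
  · rw [hMv 1 i j hi hj, hA]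
    beta_reduce
    rw [map_one]
    have h1 : LinearMap.toMatrix b b (1 : V →ₗ[ℂ] V) = 1 := LinearMap.toMatrix_one b
    rw [h1, Matrix.one_apply]
    by_cases hij : i = j
    · rw [if_pos hij, if_pos (Fin.ext hij)]
    · rw [if_neg hij, if_neg (fun h => hij (congrArg Fin.val h))]
  · rw [hMv _ i j hi hj, hsum, hA]
    beta_reduce
    rw [map_mul, LinearMap.toMatrix_mul, Matrix.mul_apply]
    refine Finset.sum_congr rfl fun k _ => ?_
    rw [hMv g i k hi k.2, hMv h k j k.2 hj]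
  · rw [hsum]
    change LinearMap.trace ℂ V (ρ g) = _
    rw [LinearMap.trace_eq_matrix_trace ℂ b, Matrix.trace]
    refine Finset.sum_congr rfl fun k _ => ?_
    rw [hMv g k k k.2 k.2, Matrix.diag_apply]

section

variable {G Ω : Type} [Group G] [Fintype Ω] {f : Ω → G → ℂ} {d : (G → ℂ) → ℕ}
  {M : (G → ℂ) → G → ℕ → ℕ → ℂ}

/-- the indices of the basis -/
abbrev II (f : Ω → G → ℂ) (d : (G → ℂ) → ℕ) : Type := {i : Ω → ℕ // ∀ ω, i ω < d (f ω)}

instance : Finite (II f d) := by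
  refine Set.Finite.to_subtype (s := {i : Ω → ℕ | ∀ ω, i ω < d (f ω)}) ?_
  have h1 : {i : Ω → ℕ | ∀ ω, i ω < d (f ω)} = Set.pi Set.univ fun ω => Set.Iio (d (f ω)) := by
    ext i
    simp
  rw [h1]
  exact Set.Finite.pi fun ω => Set.finite_Iio (d (f ω))

instance : Fintype (II f d) := Fintype.ofFinite _

/-- the product matrix -/
def RM (f : Ω → G → ℂ) (d : (G → ℂ) → ℕ) (M : (G → ℂ) → G → ℕ → ℕ → ℂ) (m : Ω → G) :
    Matrix (II f d) (II f d) ℂ := fun i j => ∏ ω, M (f ω) (m ω) (i.1 ω) (j.1 ω)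

theorem sum_II (F : Ω → ℕ → ℂ) :
    ∑ k : II f d, ∏ ω, F ω (k.1 ω) = ∏ ω, ∑ k ∈ Finset.range (d (f ω)), F ω k := by
  rw [Finset.prod_univ_sum]
  symm
  apply Finset.sum_subtype
  intro x
  rw [Fintype.mem_piFinset]
  simp only [Finset.mem_range]

theorem RM_one (hM : ∀ ω, MR (f ω) (d (f ω)) (M (f ω))) : RM f d M 1 = 1 := by
  ext i j
  rw [Matrix.one_apply]
  change ∏ ω, M (f ω) 1 (i.1 ω) (j.1 ω) = _
  have h1 : ∀ ω, M (f ω) 1 (i.1 ω) (j.1 ω) = if i.1 ω = j.1 ω then 1 else 0 :=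
    fun ω => (hM ω).one _ (i.2 ω) _ (j.2 ω)
  rw [Finset.prod_congr rfl fun ω _ => h1 ω]
  by_cases hij : i = j
  · subst hij
    rw [if_pos rfl]
    exact Finset.prod_eq_one fun ω _ => if_pos rfl
  · rw [if_neg hij]
    obtain ⟨ω, hω⟩ : ∃ ω, i.1 ω ≠ j.1 ω := by
      by_contra h
      push Not at h
      exact hij (Subtype.ext (funext h))
    exact Finset.prod_eq_zero (Finset.mem_univ ω) (if_neg hω)

theorem RM_mul (hM : ∀ ω, MR (f ω) (d (f ω)) (M (f ω))) (m n : Ω → G) :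
    RM f d M (m * n) = RM f d M m * RM f d M n := by
  ext i j
  rw [Matrix.mul_apply]
  change ∏ ω, M (f ω) (m ω * n ω) (i.1 ω) (j.1 ω) = ∑ k : II f d,
    (∏ ω, M (f ω) (m ω) (i.1 ω) (k.1 ω)) * ∏ ω, M (f ω) (n ω) (k.1 ω) (j.1 ω)
  have h1 : ∀ ω, M (f ω) (m ω * n ω) (i.1 ω) (j.1 ω) = ∑ k ∈ Finset.range (d (f ω)),
      M (f ω) (m ω) (i.1 ω) k * M (f ω) (n ω) k (j.1 ω) :=
    fun ω => (hM ω).mul _ _ _ (i.2 ω) _ (j.2 ω)
  rw [Finset.prod_congr rfl fun ω _ => h1 ω]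
  rw [← sum_II (f := f) (d := d)
    (fun ω k => M (f ω) (m ω) (i.1 ω) k * M (f ω) (n ω) k (j.1 ω))]
  exact Finset.sum_congr rfl fun k _ => Finset.prod_mul_distrib

/-- the representation -/
def RR (hM : ∀ ω, MR (f ω) (d (f ω)) (M (f ω))) : Representation ℂ (Ω → G) (II f d → ℂ) where
  toFun m := Matrix.toLin' (RM f d M m)
  map_one' := by
    rw [RM_one hM, Matrix.toLin'_one]
    rfl
  map_mul' m n := by
    rw [RM_mul hM, Matrix.toLin'_mul]
    rfl

theorem RR_apply (hM : ∀ ω, MR (f ω) (d (f ω)) (M (f ω))) (m : Ω → G) (w : II f d → ℂ)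
    (i : II f d) : RR hM m w i = ∑ j, RM f d M m i j * w j := by
  change Matrix.toLin' (RM f d M m) w i = _
  rw [Matrix.toLin'_apply]
  rfl

theorem RR_character (hM : ∀ ω, MR (f ω) (d (f ω)) (M (f ω))) : (RR hM).character = prf f := by
  funext m
  change LinearMap.trace ℂ _ (Matrix.toLin' (RM f d M m)) = ∏ ω, f ω (m ω)
  rw [Matrix.trace_toLin'_eq]
  have h1 : ∀ ω, f ω (m ω) = ∑ k ∈ Finset.range (d (f ω)), M (f ω) (m ω) k k :=
    fun ω => (hM ω).tr _
  rw [Finset.prod_congr rfl fun ω _ => h1 ω]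
  rw [← sum_II (f := f) (d := d) (fun ω k => M (f ω) (m ω) k k)]
  rfl

variable {A : Type} [Group A] [MulAction A Ω]

/-- the permutation of the indices -/
def sg (d : (G → ℂ) → ℕ) (a : Sf (A := A) f) : II f d ≃ II f d where
  toFun i := ⟨fun ω => i.1 ((a : A) • ω), fun ω => by
    have h1 := i.2 ((a : A) • ω)
    rwa [a.2 ω] at h1⟩
  invFun i := ⟨fun ω => i.1 ((a : A)⁻¹ • ω), fun ω => by
    have h1 := i.2 ((a : A)⁻¹ • ω)
    have h2 : f ((a : A)⁻¹ • ω) = f ω := (a⁻¹).2 ω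
    rwa [h2] at h1⟩
  left_inv i := by
    apply Subtype.ext
    funext ω
    change i.1 ((a : A) • (a : A)⁻¹ • ω) = i.1 ω
    rw [smul_inv_smul]
  right_inv i := by
    apply Subtype.ext
    funext ω
    change i.1 ((a : A)⁻¹ • (a : A) • ω) = i.1 ω
    rw [inv_smul_smul]

/-- the operators permuting the factors -/
def ug (d : (G → ℂ) → ℕ) : Sf (A := A) f →* ((II f d → ℂ) ≃ₗ[ℂ] (II f d → ℂ)) where
  toFun a := LinearEquiv.funCongrLeft ℂ ℂ (sg d a)
  map_one' := by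
    apply LinearEquiv.ext
    intro w
    funext i
    change w (sg d (1 : Sf (A := A) f) i) = w i
    congr 1
    apply Subtype.ext
    funext ω
    change i.1 ((1 : A) • ω) = i.1 ω
    rw [one_smul]
  map_mul' a b := by
    apply LinearEquiv.ext
    intro w
    funext i
    change w (sg d (a * b) i) = w (sg d b (sg d a i))
    congr 1
    apply Subtype.ext
    funext ω
    change i.1 (((a : A) * (b : A)) • ω) = i.1 ((a : A) • (b : A) • ω)
    rw [mul_smul]

theorem ug_apply (a : Sf (A := A) f) (w : II f d → ℂ) (i : II f d) :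
    ug d a w i = w (sg d a i) := rfl

theorem RM_sg (a : Sf (A := A) f) (m : Ω → G) (i j : II f d) :
    RM f d M m (sg d a i) (sg d a j) = RM f d M (fun ω => m ((a : A)⁻¹ • ω)) i j := by
  change ∏ ω, M (f ω) (m ω) (i.1 ((a : A) • ω)) (j.1 ((a : A) • ω)) =
    ∏ ω, M (f ω) (m ((a : A)⁻¹ • ω)) (i.1 ω) (j.1 ω)
  rw [← Equiv.prod_comp (MulAction.toPerm (a : A))
    (fun ω => M (f ω) (m ((a : A)⁻¹ • ω)) (i.1 ω) (j.1 ω))]
  refine Finset.prod_congr rfl fun ω _ => ?_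
  rw [MulAction.toPerm_apply, inv_smul_smul, a.2 ω]

end

/-- **JOB ZRP.** -/
theorem t_ZRP : S_ZRP := by
  intro G A Ω _ _ _ _ _ _ f hf
  choose! d M hM using fun (χ : G → ℂ) (h : IsIrr χ) => exists_MR χ h
  have hM' : ∀ ω, MR (f ω) (d (f ω)) (M (f ω)) := fun ω => hM _ (hf ω)
  refine ⟨II f d → ℂ, inferInstance, inferInstance, inferInstance, RR hM', ug d,
    RR_character hM', fun a m w => ?_⟩
  funext i
  rw [ug_apply, RR_apply, RR_apply, ← Equiv.sum_comp (sg d a)]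
  refine Finset.sum_congr rfl fun j _ => ?_
  rw [RM_sg, ug_apply]

end Pool.Agent.Q16.WR
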