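import Pool.Agent.Q17.WR.Stm
import Pool.Agent.Q18.KRX.Top

/-!
# Project WR, job COC: the sum over the cocycles
-/

set_option autoImplicit false
set_option linter.unusedSectionVars false
set_option linter.unusedVariables false

open scoped Classical

noncomputable section

namespace Pool.Agent.Q16.WR

open Pool.Agent.Y63.KR Pool.Agent.Q18.KRX Pool.Agent.Q17.WR

/-! ### Cocycles and families of homomorphisms -/

section

variable {G Q O : Type} [Group G] (a : Z2 →* Equiv.Perm Q) (π : Q → O) (r : O → Q)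

/-- the stabiliser of the representative -/
def St (o : O) : Subgroup Z2 where
  carrier := {l | a l (r o) = r o}
  one_mem' := by
    change a 1 (r o) = r o
    rw [map_one]
    rfl
  mul_mem' := fun {l k} hl hk => by
    change a (l * k) (r o) = r o
    rw [map_mul, Equiv.Perm.mul_apply]
    have h1 : a k (r o) = r o := hk
    have h2 : a l (r o) = r o := hl
    rw [h1, h2]
  inv_mem' := fun {l} hl => by
    change a l⁻¹ (r o) = r o
    have h2 : a l (r o) = r o := hl
    rw [map_inv, Equiv.Perm.inv_eq_iff_eq]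
    exact h2.symm

theorem mem_St {o : O} {l : Z2} : l ∈ St a r o ↔ a l (r o) = r o := Iff.rfl

/-- representatives and elements which move them to the points of their orbits -/
structure Rep (t : Q → Z2) : Prop where
  pr : ∀ o, π (r o) = o
  inv : ∀ l ω, π (a l ω) = π ω
  mv : ∀ ω, a (t ω) (r (π ω)) = ω
  one : ∀ o, t (r o) = 1

variable {a π r} {t : Q → Z2}

theorem Rep.mvi (h : Rep a π r t) (ω : Q) : a (t ω)⁻¹ ω = r (π ω) := by
  rw [map_inv, Equiv.Perm.inv_eq_iff_eq]
  exact (h.mv ω).symm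

theorem Rep.inv' (h : Rep a π r t) (l : Z2) (ω : Q) : π (a l⁻¹ ω) = π ω := h.inv _ _

theorem Rep.mem (h : Rep a π r t) (l : Z2) (ω : Q) :
    (t ω)⁻¹ * l * t (a l⁻¹ ω) ∈ St a r (π ω) := by
  rw [mem_St, map_mul, map_mul, Equiv.Perm.mul_apply, Equiv.Perm.mul_apply]
  have h1 := h.mv (a l⁻¹ ω)
  rw [h.inv'] at h1
  rw [h1]
  have h2 : a l (a l⁻¹ ω) = ω := by
    rw [← Equiv.Perm.mul_apply, ← map_mul, mul_inv_cancel, map_one, Equiv.Perm.one_apply]
  rw [h2, h.mvi]

/-- the transition element as a member of the stabiliser -/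
def Rep.tr (h : Rep a π r t) (l : Z2) (ω : Q) : St a r (π ω) :=
  ⟨(t ω)⁻¹ * l * t (a l⁻¹ ω), h.mem l ω⟩

/-- the homomorphism at the representative -/
def phi (c : Coc G a) (o : O) : St a r o →* G where
  toFun l := c.1 l (r o)
  map_one' := by
    have h1 := c.2 1 1 (r o)
    rw [mul_one] at h1
    have h2 : a (1 : Z2)⁻¹ (r o) = r o := by
      rw [inv_one, map_one]
      rfl
    rw [h2] at h1
    have h3 : c.1 1 (r o) * 1 = c.1 1 (r o) * c.1 1 (r o) := by rw [mul_one]; exact h1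
    exact (mul_left_cancel h3).symm
  map_mul' l k := by
    have h1 := c.2 l k (r o)
    have h2 : a (l : Z2)⁻¹ (r o) = r o := by
      rw [map_inv, Equiv.Perm.inv_eq_iff_eq]
      exact l.2.symm
    rw [h2] at h1
    exact h1

theorem phi_apply (c : Coc G a) (o : O) (l : St a r o) : phi (r := r) c o l = c.1 l (r o) := rfl

/-- the values which move the representatives -/
def UU (G : Type) [Group G] (r : O → Q) : Type := {u : Q → G // ∀ o, u (r o) = 1}

theorem coc_one (c : Coc G a) (ω : Q) : c.1 1 ω = 1 := by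
  have h1 := c.2 1 1 ω
  rw [mul_one] at h1
  have h2 : a (1 : Z2)⁻¹ ω = ω := by
    rw [inv_one, map_one]
    rfl
  rw [h2] at h1
  have h3 : c.1 1 ω * 1 = c.1 1 ω * c.1 1 ω := by rw [mul_one]; exact h1
  exact (mul_left_cancel h3).symm

/-- values of a homomorphism on a stabiliser at equal orbits -/
theorem phi_congr (φ : ∀ o, St a r o →* G) {o o' : O} (h : o = o') (x : St a r o)
    (y : St a r o') (hxy : (x : Z2) = y) : φ o x = φ o' y := by
  subst h
  congr 1
  exact Subtype.ext hxy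

/-- a cocycle from its values -/
def mkc (h : Rep a π r t) (u : Q → G) (φ : ∀ o, St a r o →* G) : Coc G a :=
  ⟨fun l ω => u ω * φ (π ω) (h.tr l ω) * (u (a l⁻¹ ω))⁻¹, by
    intro l k ω
    have e : a (l * k)⁻¹ ω = a k⁻¹ (a l⁻¹ ω) := by
      rw [mul_inv_rev, map_mul, Equiv.Perm.mul_apply]
    have h1 : φ (π ω) (h.tr (l * k) ω) = φ (π ω) (h.tr l ω) *
        φ (π (a l⁻¹ ω)) (h.tr k (a l⁻¹ ω)) := by
      have h2 : φ (π (a l⁻¹ ω)) (h.tr k (a l⁻¹ ω)) =
          φ (π ω) ⟨(t (a l⁻¹ ω))⁻¹ * k * t (a k⁻¹ (a l⁻¹ ω)), by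
            have h3 := h.mem k (a l⁻¹ ω)
            rwa [h.inv'] at h3⟩ :=
        phi_congr φ (h.inv' l ω) _ _ rfl
      rw [h2, ← map_mul]
      congr 1
      apply Subtype.ext
      change (t ω)⁻¹ * (l * k) * t (a (l * k)⁻¹ ω) = (t ω)⁻¹ * l * t (a l⁻¹ ω) *
        ((t (a l⁻¹ ω))⁻¹ * k * t (a k⁻¹ (a l⁻¹ ω)))
      rw [e]
      group
    beta_reduce
    rw [h1, e]
    group⟩

theorem mkc_apply (h : Rep a π r t) (u : Q → G) (φ : ∀ o, St a r o →* G) (l : Z2) (ω : Q) :
    (mkc h u φ).1 l ω = u ω * φ (π ω) (h.tr l ω) * (u (a l⁻¹ ω))⁻¹ := rfl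

/-- cocycles are pairs of values and homomorphisms -/
def cocEquiv (h : Rep a π r t) : Coc G a ≃ UU G r × (∀ o, St a r o →* G) where
  toFun c := (⟨fun ω => c.1 (t ω) ω, fun o => by
    change c.1 (t (r o)) (r o) = 1
    rw [h.one, coc_one]⟩, fun o => phi c o)
  invFun x := mkc h x.1.1 x.2
  left_inv c := by
    apply Subtype.ext
    funext l ω
    change c.1 (t ω) ω * c.1 ((t ω)⁻¹ * l * t (a l⁻¹ ω)) (r (π ω)) *
      (c.1 (t (a l⁻¹ ω)) (a l⁻¹ ω))⁻¹ = c.1 l ω
    have h1 := c.2 (t ω) ((t ω)⁻¹ * l * t (a l⁻¹ ω)) ω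
    rw [h.mvi] at h1
    rw [← h1]
    have h2 : t ω * ((t ω)⁻¹ * l * t (a l⁻¹ ω)) = l * t (a l⁻¹ ω) := by group
    rw [h2, c.2]
    group
  right_inv x := by
    obtain ⟨u, φ⟩ := x
    refine Prod.ext (Subtype.ext ?_) ?_
    · funext ω
      change u.1 ω * φ (π ω) (h.tr (t ω) ω) * (u.1 (a (t ω)⁻¹ ω))⁻¹ = u.1 ω
      have h1 : h.tr (t ω) ω = 1 := by
        apply Subtype.ext
        change (t ω)⁻¹ * t ω * t (a (t ω)⁻¹ ω) = 1
        rw [h.mvi, h.one]
        group
      rw [h1, map_one, h.mvi, u.2]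
      group
    · funext o
      ext l
      change u.1 (r o) * φ (π (r o)) (h.tr l (r o)) * (u.1 (a (l : Z2)⁻¹ (r o)))⁻¹ = φ o l
      have h2 : a (l : Z2)⁻¹ (r o) = r o := by
        rw [map_inv, Equiv.Perm.inv_eq_iff_eq]
        exact l.2.symm
      rw [h2, u.2]
      have h3 : φ (π (r o)) (h.tr l (r o)) = φ o l := by
        refine phi_congr φ (h.pr o) _ _ ?_
        change (t (r o))⁻¹ * (l : Z2) * t (a (l : Z2)⁻¹ (r o)) = l
        rw [h2, h.one]
        group
      rw [h3]
      group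

theorem cocEquiv_fst (h : Rep a π r t) (c : Coc G a) (ω : Q) :
    (cocEquiv h c).1.1 ω = c.1 (t ω) ω := rfl

theorem cocEquiv_snd (h : Rep a π r t) (c : Coc G a) (o : O) : (cocEquiv h c).2 o = phi c o := rfl

/-- the functions -/
def funEquiv (G : Type) [Group G] (h : Rep a π r t) : (Q → G) ≃ UU G r × (O → G) where
  toFun f := (⟨fun ω => f ω * (f (r (π ω)))⁻¹, fun o => by
    change f (r o) * (f (r (π (r o))))⁻¹ = 1
    rw [h.pr, mul_inv_cancel]⟩, fun o => f (r o))
  invFun x := fun ω => x.1.1 ω * x.2 (π ω)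
  left_inv f := by
    funext ω
    change f ω * (f (r (π ω)))⁻¹ * f (r (π ω)) = f ω
    rw [inv_mul_cancel_right]
  right_inv x := by
    obtain ⟨u, v⟩ := x
    have e : ∀ o, u.1 (r o) * v (π (r o)) = v o := by
      intro o
      rw [u.2, h.pr, one_mul]
    refine Prod.ext (Subtype.ext ?_) ?_
    · funext ω
      change u.1 ω * v (π ω) * (u.1 (r (π ω)) * v (π (r (π ω))))⁻¹ = u.1 ω
      rw [e, mul_inv_cancel_right]
    · funext o
      exact e o

end

/-! ### The alternating sum of a cocycle -/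

section

variable {p : ℕ} {G Q O : Type} [Group G] [Finite G] [Finite Q] [Fintype O]
  {a : Z2 →* Equiv.Perm Q} {π : Q → O} {r : O → Q} {t : Q → Z2}

theorem isPGroup_conj {g : G} {P : Subgroup G} (h : IsPGroup p P) : IsPGroup p (conjSub g P) :=
  h.map _

theorem conjSub_le_iff {g : G} {P P' : Subgroup G} : conjSub g P ≤ conjSub g P' ↔ P ≤ P' := by
  constructor
  · intro h
    have h1 := conjSub_le (g := g⁻¹) h
    rwa [conjSub_inv_conjSub, conjSub_inv_conjSub] at h1
  · exact conjSub_le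

/-- the `p`-subgroups normalised by `K` -/
def XX (p : ℕ) (K : Set G) : Finset (Subgroup G) :=
  (Set.toFinite {P : Subgroup G | IsPGroup p P ∧ ∀ x ∈ K, conjSub x P = P}).toFinset

theorem mem_XX {K : Set G} {P : Subgroup G} :
    P ∈ XX p K ↔ IsPGroup p P ∧ ∀ x ∈ K, conjSub x P = P := by
  unfold XX
  rw [Set.Finite.mem_toFinset]
  rfl

theorem conjSub_bot (g : G) : conjSub g (⊥ : Subgroup G) = ⊥ := Subgroup.map_bot _

theorem XX_erase (K : Set G) : E ((XX p K).erase ⊥) = W p K := by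
  rw [W_eq_E]
  congr 1
  ext P
  rw [Finset.mem_erase, mem_XX, mem_FP]
  tauto

theorem EF_eq (hP : S_PRD) (h : Rep a π r t) (c : Coc G a) :
    EF p c = ∏ o, W p ((phi (r := r) c o).range : Set G) := by
  have h1 := hP O (fun _ => Subgroup G) (fun o => XX p ((phi (r := r) c o).range : Set G))
    (fun o => mem_XX.2 ⟨IsPGroup.of_bot, fun x _ => conjSub_bot x⟩)
  simp only [XX_erase] at h1
  rw [← h1]
  unfold EF
  set f : (O → Subgroup G) → (Q → Subgroup G) := fun P ω => conjSub (c.1 (t ω) ω) (P (π ω)) with hf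
  have hle : ∀ P P' : O → Subgroup G, f P ≤ f P' ↔ P ≤ P' := by
    intro P P'
    constructor
    · intro h2 o
      have h3 := h2 (r o)
      simp only [hf] at h3
      rw [conjSub_le_iff, h.pr] at h3
      exact h3
    · intro h2 ω
      exact conjSub_le (h2 (π ω))
  rw [← E_image _ f (fun P _ P' _ => hle P P')]
  congr 1
  ext F
  rw [Set.Finite.mem_toFinset, Finset.mem_image]
  have hcr : ∀ (l : Z2) (ω : Q), c.1 l (a l ω) * c.1 (t ω) ω =
      c.1 (t (a l ω)) (a l ω) * c.1 ((t (a l ω))⁻¹ * l * t ω) (r (π ω)) := by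
    intro l ω
    have e1 : a l⁻¹ (a l ω) = ω := by
      rw [← Equiv.Perm.mul_apply, ← map_mul, inv_mul_cancel, map_one, Equiv.Perm.one_apply]
    have h2 := c.2 l (t ω) (a l ω)
    rw [e1] at h2
    have h3 := c.2 (t (a l ω)) ((t (a l ω))⁻¹ * l * t ω) (a l ω)
    rw [h.mvi, h.inv] at h3
    rw [← h2, ← h3]
    group
  have hcm : ∀ (l : Z2) (ω : Q), (t (a l ω))⁻¹ * l * t ω ∈ St a r (π ω) := by
    intro l ω
    have h2 := h.mem l (a l ω)
    have e1 : a l⁻¹ (a l ω) = ω := by
      rw [← Equiv.Perm.mul_apply, ← map_mul, inv_mul_cancel, map_one, Equiv.Perm.one_apply]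
    rwa [e1, h.inv] at h2
  constructor
  · rintro ⟨F1, ⟨ω0, F2⟩, F3⟩
    have hFr : ∀ ω, F ω = conjSub (c.1 (t ω) ω) (F (r (π ω))) := by
      intro ω
      have h2 := F3 (t ω) (r (π ω))
      rwa [h.mv] at h2
    refine ⟨fun o => F (r o), ?_, ?_⟩
    · rw [Finset.mem_erase]
      constructor
      · intro hbot
        apply F2
        rw [hFr ω0]
        have h2 : F (r (π ω0)) = ⊥ := congrFun hbot (π ω0)
        rw [h2, conjSub_bot]
      · rw [Fintype.mem_piFinset]
        intro o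
        rw [mem_XX]
        refine ⟨F1 _, ?_⟩
        rintro x ⟨l, rfl⟩
        have h2 := F3 (l : Z2) (r o)
        have h3 : a (l : Z2) (r o) = r o := l.2
        rw [h3] at h2
        exact h2.symm
    · funext ω
      exact (hFr ω).symm
  · rintro ⟨P, hPm, rfl⟩
    rw [Finset.mem_erase, Fintype.mem_piFinset] at hPm
    obtain ⟨hP0, hPX⟩ := hPm
    refine ⟨fun ω => isPGroup_conj (mem_XX.1 (hPX (π ω))).1, ?_, ?_⟩
    · obtain ⟨o, ho⟩ := Function.ne_iff.1 hP0
      refine ⟨r o, conjSub_ne_bot ?_⟩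
      rw [h.pr]
      exact ho
    · intro l ω
      simp only [hf]
      rw [h.inv, ← conjSub_mul, hcr, conjSub_mul]
      have h2 := (mem_XX.1 (hPX (π ω))).2 (c.1 ((t (a l ω))⁻¹ * l * t ω) (r (π ω)))
        ⟨⟨_, hcm l ω⟩, rfl⟩
      rw [h2]

end

/-! ### The sum -/

/-- the sum over the homomorphisms from a group isomorphic to `Z2` -/
theorem sum_hom (hL : S_LNK) (p : ℕ) [Fact p.Prime] (G : Type) [Group G] [Finite G]
    (S : Subgroup Z2) (e : S ≃* Z2) : Finite (S →* G) ∧
      ∑ᶠ φ : S →* G, W p (φ.range : Set G) = (Nat.card G : ℤ) * krSum p G := by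
  obtain ⟨h1, h2, -⟩ := hL p G
  let E : (Z2 →* G) ≃ (S →* G) :=
    { toFun := fun ψ => ψ.comp e.toMonoidHom
      invFun := fun φ => φ.comp e.symm.toMonoidHom
      left_inv := fun ψ => by
        apply MonoidHom.ext
        intro l
        simp
      right_inv := fun φ => by
        apply MonoidHom.ext
        intro l
        simp }
  refine ⟨Finite.of_equiv _ E, ?_⟩
  rw [h2, ← finsum_comp_equiv E]
  refine finsum_congr fun ψ => ?_
  congr 1
  change ((ψ.comp e.toMonoidHom).range : Set G) = _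
  rw [MonoidHom.range_comp]
  have h3 : e.toMonoidHom.range = ⊤ := MonoidHom.range_eq_top.2 e.surjective
  rw [h3, ← MonoidHom.range_eq_map]

/-- **JOB COC.** -/
theorem t_COC : S_LNK → S_LAT → S_PRD → S_COC := by
  intro hL hT hP p _ G Q _ _ _ a
  set O : Type := MulAction.orbitRel.Quotient (a.range : Subgroup (Equiv.Perm Q)) Q with hO
  have hOf : Finite O := inferInstance
  have : Fintype O := Fintype.ofFinite O
  set π : Q → O := fun ω => Quotient.mk _ ω with hπ
  set r : O → Q := fun o => Quotient.out o with hr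
  have hπr : ∀ o, π (r o) = o := fun o => Quotient.out_eq o
  have hiff : ∀ ω ω' : Q, π ω = π ω' ↔ ∃ l : Z2, a l ω' = ω := by
    intro ω ω'
    rw [hπ]
    beta_reduce
    rw [Quotient.eq, MulAction.orbitRel_apply]
    constructor
    · rintro ⟨⟨g, l, rfl⟩, hg⟩
      exact ⟨l, hg⟩
    · rintro ⟨l, hl⟩
      exact ⟨⟨a l, l, rfl⟩, hl⟩
  have hinv : ∀ l ω, π (a l ω) = π ω := fun l ω => (hiff _ _).2 ⟨l, rfl⟩
  have hex : ∀ ω, ∃ l : Z2, a l (r (π ω)) = ω := fun ω => (hiff _ _).1 (hπr (π ω)).symm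
  obtain ⟨t, ht, ht1⟩ : ∃ t : Q → Z2, (∀ ω, a (t ω) (r (π ω)) = ω) ∧ ∀ o, t (r o) = 1 := by
    choose s hs using hex
    refine ⟨fun ω => if ω = r (π ω) then 1 else s ω, fun ω => ?_, fun o => ?_⟩
    · beta_reduce
      split_ifs with h
      · rw [map_one, Equiv.Perm.one_apply]
        exact h.symm
      · exact hs ω
    · beta_reduce
      rw [if_pos]
      rw [hπr]
  have h : Rep a π r t := ⟨hπr, hinv, ht, ht1⟩
  have hfi : ∀ o, (St a r o).FiniteIndex := by
    intro o
    have h1 : St a r o = (MulAction.stabilizer (Equiv.Perm Q) (r o)).comap a := by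
      ext l
      rw [mem_St, Subgroup.mem_comap, MulAction.mem_stabilizer_iff]
      rfl
    rw [h1]
    refine ⟨?_⟩
    rw [Subgroup.index_comap]
    have hf : Finite (Equiv.Perm Q) := inferInstance
    exact Subgroup.index_ne_zero_of_finite
  have hS : ∀ o, Finite (St a r o →* G) ∧ ∑ᶠ φ : St a r o →* G, W p (φ.range : Set G) =
      (Nat.card G : ℤ) * krSum p G := by
    intro o
    obtain ⟨e⟩ := hT (St a r o) (hfi o)
    exact sum_hom hL p G (St a r o) e
  have hfin : ∀ o, Finite (St a r o →* G) := fun o => (hS o).1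
  have : ∀ o, Fintype (St a r o →* G) := fun o => Fintype.ofFinite _
  have : Fintype G := Fintype.ofFinite G
  have : Fintype Q := Fintype.ofFinite Q
  have hU : Finite (UU G r) := Subtype.finite
  have : Fintype (UU G r) := Fintype.ofFinite _
  have e1 : ∑ᶠ c : Coc G a, EF p c =
      ∑ᶠ x : UU G r × (∀ o, St a r o →* G), ∏ o, W p ((x.2 o).range : Set G) := by
    rw [← finsum_comp_equiv (cocEquiv (G := G) h)]
    refine finsum_congr fun c => ?_
    rw [EF_eq hP h c]
    rfl
  rw [e1, finsum_eq_sum_of_fintype, Fintype.sum_prod_type]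
  dsimp only
  rw [Finset.sum_const, nsmul_eq_mul]
  have e2 : ∑ φ : (∀ o, St a r o →* G), ∏ o, W p ((φ o).range : Set G) =
      ∏ o : O, ((Nat.card G : ℤ) * krSum p G) := by
    have h1 : ∀ o, ∑ φ : St a r o →* G, W p (φ.range : Set G) =
        (Nat.card G : ℤ) * krSum p G := by
      intro o
      rw [← finsum_eq_sum_of_fintype]
      exact (hS o).2
    rw [← Finset.prod_congr rfl fun o _ => h1 o, Finset.prod_univ_sum, Fintype.piFinset_univ]
  rw [e2, Finset.prod_const, Finset.card_univ, mul_pow, ← mul_assoc]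
  have e3 : (Fintype.card (UU G r)) * (Nat.card G) ^ (Fintype.card O) =
      (Nat.card G) ^ (Nat.card Q) := by
    have h1 := Fintype.card_congr (funEquiv G h)
    rw [Fintype.card_prod, Fintype.card_fun, Fintype.card_fun] at h1
    rw [Nat.card_eq_fintype_card, Nat.card_eq_fintype_card, h1]
  have e4 : Nat.card O = Fintype.card O := Nat.card_eq_fintype_card
  rw [e4, ← Nat.cast_pow, ← Nat.cast_pow, ← e3, Finset.card_univ]
  push_cast
  ring

end Pool.Agent.Q16.WR
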